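import Pool.Agent.Lib.MP_60b36a_gt.Main

/-!
Monodromy growth bound. For a discrete group `Γ` of isometries of hyperbolic `n`-space (positive
Lorentz matrices) and a subgroup `N` generated by a finite set `S` and containing a free group of
rank two, the number of cosets `g N` such that conjugation by `g` sends every generator to a word
of length at most `T` in the generators is at most `C * T ^ (n - 2)`.
-/

namespace Pool.Agent.Results.MP_60b36a_gt.MonodromyGrowth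

open Matrix

theorem result (n : ℕ) (hn : 3 ≤ n) (Γ N : Subgroup (GL (Fin (n + 1)) ℝ))
    (hO : ∀ g ∈ Γ,
      (g : Matrix (Fin (n + 1)) (Fin (n + 1)) ℝ)ᵀ *
          Matrix.diagonal (fun i : Fin (n + 1) => if i = 0 then (-1 : ℝ) else 1) *
          (g : Matrix (Fin (n + 1)) (Fin (n + 1)) ℝ)
        = Matrix.diagonal (fun i : Fin (n + 1) => if i = 0 then (-1 : ℝ) else 1) ∧
      0 < (g : Matrix (Fin (n + 1)) (Fin (n + 1)) ℝ) 0 0)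
    (hd : DiscreteTopology Γ) (hN : N ≤ Γ) (S : Finset (GL (Fin (n + 1)) ℝ))
    (hS : Subgroup.closure (S : Set (GL (Fin (n + 1)) ℝ)) = N)
    (hfree : ∃ φ : FreeGroup (Fin 2) →* GL (Fin (n + 1)) ℝ,
      Function.Injective φ ∧ φ.range ≤ N) :
    ∃ C : ℕ, ∀ T : ℕ, 1 ≤ T →
      {q : GL (Fin (n + 1)) ℝ ⧸ N | ∃ g ∈ Γ, QuotientGroup.mk g = q ∧
        ∀ s ∈ S, ∃ l : List (GL (Fin (n + 1)) ℝ), l.length ≤ T ∧
          (∀ x ∈ l, x ∈ S ∨ x⁻¹ ∈ S) ∧ l.prod = g⁻¹ * s * g}.encard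
        ≤ ((C * T ^ (n - 2) : ℕ) : ℕ∞) := by
  obtain ⟨k, rfl⟩ : ∃ k, n = k + 1 := ⟨n - 1, by omega⟩
  obtain ⟨φ, hφ, hr⟩ := hfree
  obtain ⟨C, hC⟩ := Pool.Agent.Lib.MP_60b36a_gt.main (k := k) (by omega) Γ N hO hd hN S hS φ hφ hr
  refine ⟨⌈C⌉₊, fun T hT => ?_⟩
  obtain ⟨-, h1, h2⟩ := hC T hT {g | g ∈ Γ ∧ ∀ s ∈ S, ∃ l : List (GL (Fin (k + 2)) ℝ),
    l.length ≤ T ∧ (∀ x ∈ l, x ∈ S ∨ x⁻¹ ∈ S) ∧ l.prod = g⁻¹ * s * g} (fun g hg => hg)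
  have e : {q : GL (Fin (k + 1 + 1)) ℝ ⧸ N | ∃ g ∈ Γ, QuotientGroup.mk g = q ∧
        ∀ s ∈ S, ∃ l : List (GL (Fin (k + 1 + 1)) ℝ), l.length ≤ T ∧
          (∀ x ∈ l, x ∈ S ∨ x⁻¹ ∈ S) ∧ l.prod = g⁻¹ * s * g}
      = (fun g => (QuotientGroup.mk g : GL (Fin (k + 2)) ℝ ⧸ N)) ''
        {g | g ∈ Γ ∧ ∀ s ∈ S, ∃ l : List (GL (Fin (k + 2)) ℝ),
          l.length ≤ T ∧ (∀ x ∈ l, x ∈ S ∨ x⁻¹ ∈ S) ∧ l.prod = g⁻¹ * s * g} := by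
    ext q
    constructor
    · rintro ⟨g, a1, a2, a3⟩
      exact ⟨g, ⟨a1, a3⟩, a2⟩
    · rintro ⟨g, ⟨a1, a3⟩, a2⟩
      exact ⟨g, a1, a2, a3⟩
  rw [e, ← h1.cast_ncard_eq, Nat.cast_le, show k + 1 - 2 = k - 1 by omega]
  have h3 : C * (T : ℝ) ^ (k - 1) ≤ (⌈C⌉₊ : ℝ) * (T : ℝ) ^ (k - 1) :=
    mul_le_mul_of_nonneg_right (Nat.le_ceil C) (by positivity)
  exact_mod_cast h2.trans h3

end Pool.Agent.Results.MP_60b36a_gt.MonodromyGrowth
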