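import Pool.Agent.Lib.MP_60b36a_gt.Sp.Core
import Pool.Agent.Lib.MP_60b36a_gt.Sp.Lor

/-!
Strict monodromy growth bound. For a closed hyperbolic `n`-manifold group `Γ`, `n ≥ 4`, and a
finitely generated normal subgroup `N` containing a free group of rank two with word hyperbolic
quotient, the number of cosets `g N` such that conjugation by `g` sends every generator of `N` to a
word of length at most `T` is `o(T ^ (n - 2))`.
-/

set_option autoImplicit false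

namespace Pool.Agent.Results.MP_60b36a_gt.MonodromySparse

open Matrix SimpleGraph Pool.Agent.Lib.MP_60b36a_gt Pool.Agent.Lib.MP_60b36a_gt.Sp

theorem result (n : ℕ) (hn : 4 ≤ n) (Γ : Subgroup (GL (Fin (n + 1)) ℝ))
    (hO : ∀ g ∈ Γ,
      (g : Matrix (Fin (n + 1)) (Fin (n + 1)) ℝ)ᵀ *
          Matrix.diagonal (fun i : Fin (n + 1) => if i = 0 then (-1 : ℝ) else 1) *
          (g : Matrix (Fin (n + 1)) (Fin (n + 1)) ℝ)
        = Matrix.diagonal (fun i : Fin (n + 1) => if i = 0 then (-1 : ℝ) else 1) ∧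
      0 < (g : Matrix (Fin (n + 1)) (Fin (n + 1)) ℝ) 0 0)
    (hd : DiscreteTopology Γ) (htf : ∀ g ∈ Γ, IsOfFinOrder g → g = 1)
    (hco : ∃ ρ : ℝ, ∀ x : Fin (n + 1) → ℝ, x 0 ^ 2 = 1 + ∑ i : Fin n, x i.succ ^ 2 → 0 < x 0 →
      ∃ g ∈ Γ, ((g : Matrix (Fin (n + 1)) (Fin (n + 1)) ℝ) *ᵥ x) 0 ≤ ρ)
    (N : Subgroup Γ) [N.Normal] (S : Finset Γ) (hS : Subgroup.closure (S : Set Γ) = N)
    (hfree : ∃ φ : FreeGroup (Fin 2) →* Γ, Function.Injective φ ∧ φ.range ≤ N)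
    (A : Finset (Γ ⧸ N)) (hA : Subgroup.closure (A : Set (Γ ⧸ N)) = ⊤) (δ : ℕ)
    (hδ : ∀ x y z w : Γ ⧸ N,
      (mulCayley (A : Set (Γ ⧸ N))).dist x y + (mulCayley (A : Set (Γ ⧸ N))).dist z w ≤
        max ((mulCayley (A : Set (Γ ⧸ N))).dist x z + (mulCayley (A : Set (Γ ⧸ N))).dist y w)
          ((mulCayley (A : Set (Γ ⧸ N))).dist x w + (mulCayley (A : Set (Γ ⧸ N))).dist y z) + δ)
    (ε : ℝ) (hε : 0 < ε) :
    ∃ T₀ : ℕ, ∀ T : ℕ, T₀ ≤ T → ∀ F : Finset (Γ ⧸ N),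
      (∀ q ∈ F, ∃ g : Γ, QuotientGroup.mk g = q ∧ ∀ s ∈ S, ∃ l : List Γ, l.length ≤ T ∧
        (∀ x ∈ l, x ∈ S ∨ x⁻¹ ∈ S) ∧ l.prod = g⁻¹ * s * g) →
      (F.card : ℝ) ≤ ε * (T : ℝ) ^ (n - 2) := by
  classical
  obtain ⟨k, rfl⟩ : ∃ k, n = k + 1 := ⟨n - 1, by omega⟩
  obtain ⟨ρ, hρ⟩ := hco
  obtain ⟨φ, hφ, hr⟩ := hfree
  obtain ⟨top, ball, C, c, σ, h⟩ := exists_geo (k := k) (by omega) Γ hO hd htf (ρ := ρ)
    fun X hX => hρ X (by have := hX.1; unfold lor at this; simp only [sq]; linarith) hX.2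
  obtain ⟨e, he, H⟩ := hyp_cay A hA hδ
  have e1 : Subgroup.closure ((S.image Subtype.val : Finset _) : Set (GL (Fin (k + 2)) ℝ)) =
      N.map Γ.subtype := by rw [← hS, MonoidHom.map_closure, Finset.coe_image]; rfl
  obtain ⟨c₀, c0, hc⟩ := exists_gap Γ hO (S.image Subtype.val) (fun s hs => by
      obtain ⟨t, -, rfl⟩ := Finset.mem_image.1 hs
      exact t.2) fun ξ h0 hξ => no_fix (by omega) Γ hO hd _ (e1 ▸ Subgroup.map_subtype_le N)
    (Γ.subtype.comp φ) (Subtype.val_injective.comp hφ)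
    (by rw [e1, MonoidHom.range_comp]; exact Subgroup.map_mono hr) h0 hξ
  have r0 : ∀ s ∈ S, 0 ≤ pt (s : GL (Fin (k + 2)) ℝ) 0 := fun s _ => (h.pos s).le
  have hN : ∀ s ∈ S, s ∈ N := fun s hs => hS ▸ Subgroup.subset_closure hs
  obtain ⟨J₀, hJ⟩ := h.core (by omega) H he (QuotientGroup.mk' N) (Finset.sum_nonneg r0) c0
    (ε := ε / 2 ^ k) (by positivity)
  refine ⟨2 ^ J₀, fun T hT F hF => ?_⟩
  obtain ⟨j, j1, j2⟩ := exists_nat_pow_near (Nat.one_le_two_pow.trans hT) one_lt_two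
  have j3 : J₀ < j + 1 := (Nat.pow_lt_pow_iff_right one_lt_two).1 (hT.trans_lt j2)
  refine (hJ (j + 1) j3.le F fun q hq => ?_).trans ?_
  · obtain ⟨g, rfl, hg⟩ := hF q hq
    obtain ⟨t, hs', i, hi⟩ := hc g g.2
    obtain ⟨s, hs, rfl⟩ := Finset.mem_image.1 hs'
    obtain ⟨l, l1, l2, l3⟩ := hg s hs
    obtain ⟨w, hw⟩ := cay_list (A := (S : Set Γ)) l l2 g
    have e2 : g * l.prod = s * g := by rw [l3]; group
    obtain ⟨p, p0, p1, p2, p3⟩ := geodesic (Walk.reachable w)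
    have st : ∀ i < (mulCayley (S : Set Γ)).dist g (g * l.prod),
        (p i)⁻¹ * p (i + 1) ∈ S ∨ ((p i)⁻¹ * p (i + 1))⁻¹ ∈ S := fun i hi => by
      simpa using ((mulCayley_adj _ _ _).1 (p2 i hi)).2
    have ds : ∀ i ≤ (mulCayley (S : Set Γ)).dist g (g * l.prod),
        ∀ i' ≤ (mulCayley (S : Set Γ)).dist g (g * l.prod),
        (mulCayley (S : Set Γ)).dist 1 ((p i)⁻¹ * p i') = ((i : ℤ) - i').natAbs := fun i a i' b => by
      rw [← cay_dist (p i), mul_one, mul_inv_cancel_left]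
      rcases le_total i i' with o | o
      · have := p3 i i' o b; omega
      · have := p3 i' i o a; rw [SimpleGraph.dist_comm]; omega
    refine ⟨p, _, (dist_le w).trans (hw.trans (l1.trans j2.le)), fun i => ?_, fun i hi => ?_,
      fun i hi => by rw [p1 i hi, p1 _ le_rfl], fun i a i' b j c j' d e => by
        rw [← ds i a i' b, e, ds j c j' d], ?_⟩
    · induction i with
      | zero => rw [p0]; rfl
      | succ i ih =>
        rcases lt_or_ge i ((mulCayley (S : Set Γ)).dist g (g * l.prod)) with o | o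
        · rw [← ih]
          refine (QuotientGroup.eq.2 ?_).symm
          rcases st i o with a | a
          exacts [hN _ a, inv_mem_iff.1 (hN _ a)]
        · rw [p1 _ (o.trans (Nat.le_succ i)), ← p1 _ o, ih]
    · rcases st i hi with a | a
      · exact Finset.single_le_sum r0 a
      · exact (h.inv _).symm.trans_le (Finset.single_le_sum r0 a)
    · rw [p1 _ le_rfl, p0, e2]
      refine hi.trans ?_
      refine Fin.cases ?_ (fun j => ?_) i
      · rw [(klein_mem (hO _ (Γ.mul_mem s.2 g.2))).1, (klein_mem (hO _ g.2)).1, sub_self, abs_zero]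
        exact norm_nonneg _
      · have := PiLp.norm_apply_le (kl (pt (s * g).1) - kl (pt g.1)) j
        simpa [kl, klein, div_eq_inv_mul] using this
  · have a : (2 : ℝ) ^ (j + 1) ≤ 2 * T := by
      rw [pow_succ']; exact_mod_cast Nat.mul_le_mul_left 2 j1
    obtain ⟨k, rfl⟩ : ∃ i, k = i + 1 := ⟨k - 1, by omega⟩
    rw [Nat.add_sub_cancel, show k + 1 + 1 - 2 = k by omega]
    calc _ ≤ 2 * (ε / 2 ^ (k + 1)) * (2 * T) ^ k := by gcongr
      _ = _ := by rw [mul_pow, pow_succ]; field_simp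

end Pool.Agent.Results.MP_60b36a_gt.MonodromySparse
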